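import Pool.Agent.Helper52.SG.Goals

/-!
# Project SG, packet LGF
-/

set_option autoImplicit false

namespace Pool.Agent.Helper76.SG.LGF

open Subgroup Pool.H83Shunkov Pool.Agent.Helper29.SH Pool.Agent.Helper52.SG

variable {A B : Type} [Group A] [Group B]

/-- preimages of finite sets under a homomorphism with finite kernel are finite -/
theorem finite_preimage (f : A →* B) (hk : (f.ker : Set A).Finite) {s : Set B} (hs : s.Finite) :
    (f ⁻¹' s).Finite := by
  refine Set.Finite.preimage' hs ?_
  intro b _
  by_cases h : ∃ x, f x = b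
  · obtain ⟨x, rfl⟩ := h
    refine (hk.image (fun y => x * y)).subset ?_
    intro y hy
    have hy' : f y = f x := hy
    refine ⟨x⁻¹ * y, ?_, ?_⟩
    · show x⁻¹ * y ∈ f.ker
      rw [MonoidHom.mem_ker, map_mul, map_inv, hy', inv_mul_cancel]
    · show x * (x⁻¹ * y) = y
      rw [mul_inv_cancel_left]
  · have : f ⁻¹' {b} = ∅ := by
      ext y
      constructor
      · intro hy
        exact h ⟨y, hy⟩
      · intro hy
        exact hy.elim
    rw [this]
    exact Set.finite_empty

/-- lifts of pair-finite elements are pair-finite if the kernel is finite -/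
theorem pairFinite_lift (f : A →* B) (hk : (f.ker : Set A).Finite) {x : A}
    (hx : PairFinite (f x)) : PairFinite x := by
  intro g
  refine (finite_preimage f hk (hx (f g))).subset ?_
  have h2 : (closure ({x, g⁻¹ * x * g} : Set A)).map f =
      closure ({f x, (f g)⁻¹ * f x * f g} : Set B) := by
    rw [MonoidHom.map_closure]
    congr 1
    rw [Set.image_pair]
    simp
  intro y hy
  show f y ∈ (closure ({f x, (f g)⁻¹ * f x * f g} : Set B) : Subgroup B)
  rw [← h2]
  exact ⟨y, hy, rfl⟩

theorem pairFinite_one : PairFinite (1 : B) := by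
  intro g
  refine (Set.finite_singleton (1 : B)).subset ?_
  have h : closure ({1, g⁻¹ * 1 * g} : Set B) ≤ ⊥ := by
    rw [closure_le]
    intro y hy
    rcases hy with rfl | hy
    · exact one_mem _
    · have : y = 1 := by
        rw [Set.mem_singleton_iff] at hy
        rw [hy]
        group
      rw [this]
      exact one_mem _
  intro y hy
  exact mem_bot.1 (h hy)

/-- `PG` is inherited from a quotient by a finite normal subgroup -/
theorem pg_of_surj (f : A →* B) (hf : Function.Surjective f) (hk : (f.ker : Set A).Finite)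
    (h : PG B) : PG A := by
  classical
  obtain ⟨S, hS, hp⟩ := h
  let σ : B → A := Function.surjInv hf
  have hσ : ∀ b, f (σ b) = b := Function.surjInv_eq hf
  refine ⟨S.image σ ∪ hk.toFinset, ?_, ?_⟩
  · have h1 : f.ker ≤ closure ((S.image σ ∪ hk.toFinset : Finset A) : Set A) := by
      intro x hx
      refine subset_closure ?_
      simp only [Finset.coe_union, Set.Finite.coe_toFinset]
      exact Or.inr hx
    have h2 : (closure ((S.image σ ∪ hk.toFinset : Finset A) : Set A)).map f = ⊤ := by
      rw [eq_top_iff, ← hS, closure_le]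
      intro b hb
      refine ⟨σ b, subset_closure ?_, hσ b⟩
      simp only [Finset.coe_union, Finset.coe_image]
      exact Or.inl ⟨b, hb, rfl⟩
    rw [eq_top_iff]
    intro x _
    have h3 : f x ∈ (closure ((S.image σ ∪ hk.toFinset : Finset A) : Set A)).map f := by
      rw [h2]
      exact mem_top _
    obtain ⟨y, hy, hyx⟩ := h3
    have h4 : y⁻¹ * x ∈ f.ker := by
      rw [MonoidHom.mem_ker, map_mul, map_inv, hyx, inv_mul_cancel]
    have h5 := mul_mem hy (h1 h4)
    rwa [mul_inv_cancel_left] at h5
  · intro s hs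
    apply pairFinite_lift f hk
    rw [Finset.mem_union, Finset.mem_image, Set.Finite.mem_toFinset] at hs
    rcases hs with ⟨b, hb, rfl⟩ | hs
    · rw [hσ]
      exact hp b hb
    · have : f s = 1 := hs
      rw [this]
      exact pairFinite_one

/-- `IQ` passes to the quotient by a finite normal subgroup -/
theorem iq_of_surj (f : A →* B) (hf : Function.Surjective f) (hk : (f.ker : Set A).Finite)
    (h : IQ A) : IQ B := by
  classical
  obtain ⟨R, hR, hinf, hrf⟩ := h
  have hfin : Finite f.ker := hk.to_subtype
  refine ⟨R.map f, hR.map f hf, ?_, ?_⟩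
  · by_contra hcon
    rw [not_infinite_iff_finite] at hcon
    have h1 : (R.map f).FiniteIndex := Subgroup.finiteIndex_of_finite_quotient
    have h2 : ((R.map f).comap f).index ≠ 0 := by
      rw [Subgroup.index_comap_of_surjective _ hf]
      exact h1.index_ne_zero
    rw [Subgroup.comap_map_eq] at h2
    have h3 : R.relIndex (f.ker ⊔ R) ≠ 0 := by
      rw [Subgroup.relIndex_sup_right]
      exact Subgroup.index_ne_zero_of_finite
    have h4 : R.relIndex (f.ker ⊔ R) * (f.ker ⊔ R).index = R.index :=
      Subgroup.relIndex_mul_index le_sup_right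
    have h5 : R.index ≠ 0 := by
      rw [← h4]
      refine mul_ne_zero h3 ?_
      rw [sup_comm]
      exact h2
    have h6 : R.FiniteIndex := ⟨h5⟩
    have h7 : Finite (A ⧸ R) := inferInstance
    exact not_finite_iff_infinite.2 hinf h7
  · intro x' hx'
    obtain ⟨x, rfl⟩ := hf x'
    have h1 : ∀ t : f.ker, x * (t : A)⁻¹ ∉ R := by
      intro t ht
      apply hx'
      refine ⟨x * (t : A)⁻¹, ht, ?_⟩
      have : f (t : A) = 1 := t.2
      rw [map_mul, map_inv, this, inv_one, mul_one]
    choose M hM1 hM2 hM3 hM4 using fun t : f.ker => hrf _ (h1 t)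
    have hN : (⨅ t, M t).Normal := Subgroup.normal_iInf_normal hM1
    have hI : (⨅ t, M t).FiniteIndex := Subgroup.finiteIndex_iInf hM2
    refine ⟨(⨅ t, M t).map f, hN.map f hf, ?_, ?_, ?_⟩
    · refine ⟨?_⟩
      intro h0
      have h2 := Subgroup.index_map_dvd (⨅ t, M t) hf
      rw [h0] at h2
      exact hI.index_ne_zero (Nat.eq_zero_of_zero_dvd h2)
    · exact Subgroup.map_mono (le_iInf hM3)
    · rintro ⟨m, hm, hmx⟩
      have h2 : m⁻¹ * x ∈ f.ker := by
        rw [MonoidHom.mem_ker, map_mul, map_inv, hmx, inv_mul_cancel]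
      refine hM4 ⟨m⁻¹ * x, h2⟩ ?_
      have h3 : x * (m⁻¹ * x)⁻¹ = m := by group
      show x * (m⁻¹ * x)⁻¹ ∈ _
      rw [h3]
      exact (iInf_le M _) hm

theorem t : Pool.Agent.Helper52.SG.S_LGF := by
  intro G _ T _ hT hG K' hK' hinf
  let f := (QuotientGroup.mk' T).subgroupComap K'
  have hf : Function.Surjective f :=
    (QuotientGroup.mk' T).subgroupComap_surjective_of_surjective K'
      (QuotientGroup.mk'_surjective T)
  have hk : (f.ker : Set (K'.comap (QuotientGroup.mk' T))).Finite := by
    refine Set.Finite.of_finite_image (f := (K'.comap (QuotientGroup.mk' T)).subtype)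
      (hT.subset ?_) (Subgroup.subtype_injective _).injOn
    rintro y ⟨x, hx, rfl⟩
    have h1 : f x = 1 := hx
    have h2 : QuotientGroup.mk' T (x : G) = 1 := congrArg Subtype.val h1
    exact (QuotientGroup.eq_one_iff (x : G)).1 h2
  have h1 : PG (K'.comap (QuotientGroup.mk' T)) := pg_of_surj f hf hk hK'
  have h2 : Infinite (K'.comap (QuotientGroup.mk' T)) := Infinite.of_surjective f hf
  exact iq_of_surj f hf hk (hG _ h1 h2)

end Pool.Agent.Helper76.SG.LGF
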